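import Mathlib
import Pool.Agent.R793.MR.Stm

/-!
# MR-C2 (project MR of helper793, MP_e79d62_co): from the hyperbolic form to `t`
-/

set_option autoImplicit false

open Finset Pool.Agent.R793.MR

namespace Pool.Agent.R780.MR

section
variable {K : Type} [Field K]

/-- `w_0 d`. -/
def W0 (σ : K ≃+* K) (lam x d : K) : K :=
  lam * (σ d + σ (σ d)) + x * (σ (σ d) + σ (σ (σ d)))
    + (σ (σ (σ lam)) + 1) * (σ (σ (σ d)) + σ (σ (σ (σ d)))) + d

/-- `w_1 d`. -/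
def W1 (σ : K ≃+* K) (lam x d : K) : K :=
  lam * (d + σ d) + σ lam * (σ (σ d) + σ (σ (σ d)))
    + σ x * (σ (σ (σ d)) + σ (σ (σ (σ d)))) + d

/-- `w_2 d`. -/
def W2 (σ : K ≃+* K) (lam x d : K) : K :=
  x * (d + σ d) + σ lam * (σ d + σ (σ d))
    + σ (σ lam) * (σ (σ (σ d)) + σ (σ (σ (σ d)))) + d

/-- `w_3 d`. -/
def W3 (σ : K ≃+* K) (lam x d : K) : K :=
  (σ (σ (σ lam)) + 1) * (d + σ d) + σ x * (σ d + σ (σ d))
    + σ (σ lam) * (σ (σ d) + σ (σ (σ d))) + d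

theorem polar (h2 : (2 : K) = 0) (σ : K ≃+* K) (lam x c d : K) :
    BB σ lam x c d = (c + σ c) * W0 σ lam x d + (σ c + σ (σ c)) * W1 σ lam x d
      + (σ (σ c) + σ (σ (σ c))) * W2 σ lam x d
      + (σ (σ (σ c)) + σ (σ (σ (σ c)))) * W3 σ lam x d
      + c * (d + σ (σ (σ (σ d)))) := by
  unfold BB QQ qf W0 W1 W2 W3
  simp only [map_add]
  generalize σ (σ (σ (σ c))) = c4
  generalize σ (σ (σ c)) = c3
  generalize σ (σ c) = c2
  generalize σ c = c1
  generalize σ (σ (σ (σ d))) = d4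
  generalize σ (σ (σ d)) = d3
  generalize σ (σ d) = d2
  generalize σ d = d1
  generalize σ (σ (σ lam)) = l3
  generalize σ (σ lam) = l2
  generalize σ lam = l1
  generalize σ x = y
  linear_combination (lam * ((c + c1) * (c1 + c2)) + l1 * ((c1 + c2) * (c2 + c3))
    + l2 * ((c2 + c3) * (c3 + c4)) + (l3 + 1) * ((c + c1) * (c3 + c4))
    + x * ((c + c1) * (c2 + c3)) + y * ((c1 + c2) * (c3 + c4)) + c * c4
    + lam * ((d + d1) * (d1 + d2)) + l1 * ((d1 + d2) * (d2 + d3))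
    + l2 * ((d2 + d3) * (d3 + d4)) + (l3 + 1) * ((d + d1) * (d3 + d4))
    + x * ((d + d1) * (d2 + d3)) + y * ((d1 + d2) * (d3 + d4)) + d * d4
    - d * (c1 + c2 + c3) - c * d) * h2

theorem s0 (σ : K ≃+* K) (lam x d tau : K) (h2 : (2 : K) = 0)
    (hd : σ (σ (σ (σ d))) = d + tau) (ht : σ tau = tau)
    (hl : σ (σ (σ (σ lam))) = lam) :
    σ (W0 σ lam x d) = W1 σ lam x d := by
  unfold W0 W1
  simp only [map_add, map_mul, map_one, hd, hl, ht]
  linear_combination (tau + tau * lam + σ d) * h2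

theorem s1 (σ : K ≃+* K) (lam x d tau : K) (h2 : (2 : K) = 0)
    (hd : σ (σ (σ (σ d))) = d + tau) (ht : σ tau = tau)
    (hx : σ (σ x) = x + 1) :
    σ (W1 σ lam x d) = W2 σ lam x d := by
  unfold W1 W2
  simp only [map_add, map_mul, hd, hx, ht]
  linear_combination (σ d + tau + tau * x) * h2

theorem s2 (σ : K ≃+* K) (lam x d tau : K) (h2 : (2 : K) = 0)
    (hd : σ (σ (σ (σ d))) = d + tau) (ht : σ tau = tau) :
    σ (W2 σ lam x d) = W3 σ lam x d := by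
  unfold W2 W3
  simp only [map_add, map_mul, hd, ht]
  linear_combination (σ (σ (σ lam)) * tau - d) * h2

theorem s3 (σ : K ≃+* K) (lam x d tau : K) (h2 : (2 : K) = 0)
    (hd : σ (σ (σ (σ d))) = d + tau)
    (hx : σ (σ x) = x + 1) (hl : σ (σ (σ (σ lam))) = lam) :
    σ (W3 σ lam x d) = W0 σ lam x d + tau := by
  unfold W3 W0
  simp only [map_add, map_mul, map_one, hd, hx, hl]
  linear_combination (σ d + σ (σ d) - d - tau) * h2

/-- The final computation. -/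
theorem fin1 (h2 : (2 : K) = 0) (lam w0 w1 u0 u1 r0 r1 : K) (hu0 : u0 ≠ 0) (hu1 : u1 ≠ 0)
    (h0 : w0 ^ 2 + w0 = u0 * r0) (h1 : w1 ^ 2 + w1 = u1 * r1)
    (hl : lam = w0 + w1 + u0 * r1 + u1 * r0) :
    (w0 / u0 + w1 / u1) * ((w0 + 1) / u0 + (w1 + 1) / u1) =
      lam * ((w0 / u0 + (w0 + 1) / u0) * (w1 / u1 + (w1 + 1) / u1)) := by
  have e0 : w0 / u0 + (w0 + 1) / u0 = 1 / u0 := by
    rw [← add_div]; congr 1; linear_combination w0 * h2
  have e1 : w1 / u1 + (w1 + 1) / u1 = 1 / u1 := by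
    rw [← add_div]; congr 1; linear_combination w1 * h2
  rw [e0, e1]
  field_simp
  subst hl
  linear_combination u1 ^ 2 * h0 + u0 ^ 2 * h1 + (w0 * u1 * u0 * w1) * h2

theorem ind2 [Fintype K] [DecidableEq K] [CharP K 2] (h2 : (2 : K) = 0) (σ : K ≃+* K)
    (hadd : ∀ c ∈ VV σ, ∀ d ∈ VV σ, c + d ∈ VV σ)
    (hind : ∀ k0 k1 k2 k3 k : K, (∀ c ∈ VV σ, k0 * (c + σ c) + k1 * (σ c + σ (σ c))
      + k2 * (σ (σ c) + σ (σ (σ c))) + k3 * (σ (σ (σ c)) + σ (σ (σ (σ c)))) + k * c = 0) →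
      k0 = 0 ∧ k1 = 0 ∧ k2 = 0 ∧ k3 = 0 ∧ k = 0)
    (g0 g1 g2 g3 g01 g02 g03 g12 g13 g23 : K)
    (h : ∀ c ∈ VV σ, g0 * (c + σ c) ^ 2 + g1 * (σ c + σ (σ c)) ^ 2
      + g2 * (σ (σ c) + σ (σ (σ c))) ^ 2 + g3 * (σ (σ (σ c)) + σ (σ (σ (σ c)))) ^ 2
      + g01 * ((c + σ c) * (σ c + σ (σ c)))
      + g02 * ((c + σ c) * (σ (σ c) + σ (σ (σ c))))
      + g03 * ((c + σ c) * (σ (σ (σ c)) + σ (σ (σ (σ c)))))
      + g12 * ((σ c + σ (σ c)) * (σ (σ c) + σ (σ (σ c))))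
      + g13 * ((σ c + σ (σ c)) * (σ (σ (σ c)) + σ (σ (σ (σ c)))))
      + g23 * ((σ (σ c) + σ (σ (σ c))) * (σ (σ (σ c)) + σ (σ (σ (σ c))))) = 0) :
    g01 = 0 ∧ g0 = 0 := by
  have key : ∀ d ∈ VV σ,
      (g01 * (σ d + σ (σ d)) + g02 * (σ (σ d) + σ (σ (σ d)))
        + g03 * (σ (σ (σ d)) + σ (σ (σ (σ d)))) = 0) ∧
      (g01 * (d + σ d) + g12 * (σ (σ d) + σ (σ (σ d)))
        + g13 * (σ (σ (σ d)) + σ (σ (σ (σ d)))) = 0) ∧
      (g02 * (d + σ d) + g12 * (σ d + σ (σ d))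
        + g23 * (σ (σ (σ d)) + σ (σ (σ (σ d)))) = 0) := by
    intro d hd
    have := hind (g01 * (σ d + σ (σ d)) + g02 * (σ (σ d) + σ (σ (σ d)))
        + g03 * (σ (σ (σ d)) + σ (σ (σ (σ d)))))
      (g01 * (d + σ d) + g12 * (σ (σ d) + σ (σ (σ d)))
        + g13 * (σ (σ (σ d)) + σ (σ (σ (σ d)))))
      (g02 * (d + σ d) + g12 * (σ d + σ (σ d))
        + g23 * (σ (σ (σ d)) + σ (σ (σ (σ d)))))
      (g03 * (d + σ d) + g13 * (σ d + σ (σ d)) + g23 * (σ (σ d) + σ (σ (σ d)))) 0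
      (by
        intro c hc
        have a1 := h _ (hadd c hc d hd)
        have a2 := h c hc
        have a3 := h d hd
        simp only [map_add] at a1
        linear_combination a1 - a2 - a3 - (g0 * ((c + σ c) * (d + σ d))
          + g1 * ((σ c + σ (σ c)) * (σ d + σ (σ d)))
          + g2 * ((σ (σ c) + σ (σ (σ c))) * (σ (σ d) + σ (σ (σ d))))
          + g3 * ((σ (σ (σ c)) + σ (σ (σ (σ c)))) * (σ (σ (σ d)) + σ (σ (σ (σ d)))))) * h2)
    exact ⟨this.1, this.2.1, this.2.2.1⟩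
  have k1 := hind 0 g01 g02 g03 0 (fun d hd => by linear_combination (key d hd).1)
  have k2 := hind g01 0 g12 g13 0 (fun d hd => by linear_combination (key d hd).2.1)
  have k3 := hind g02 g12 0 g23 0 (fun d hd => by linear_combination (key d hd).2.2)
  obtain ⟨-, e01, e02, e03, -⟩ := k1
  obtain ⟨-, -, e12, e13, -⟩ := k2
  obtain ⟨-, -, -, e23, -⟩ := k3
  refine ⟨e01, ?_⟩
  have hr : ringChar K = 2 := ringChar.eq K 2
  obtain ⟨s0, hs0⟩ := FiniteField.isSquare_of_char_two hr g0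
  obtain ⟨s1, hs1⟩ := FiniteField.isSquare_of_char_two hr g1
  obtain ⟨s2, hs2⟩ := FiniteField.isSquare_of_char_two hr g2
  obtain ⟨s3, hs3⟩ := FiniteField.isSquare_of_char_two hr g3
  have k := hind s0 s1 s2 s3 0 (by
    intro c hc
    have a := h c hc
    rw [e01, e02, e03, e12, e13, e23, hs0, hs1, hs2, hs3] at a
    have a' : (s0 * (c + σ c) + s1 * (σ c + σ (σ c)) + s2 * (σ (σ c) + σ (σ (σ c)))
        + s3 * (σ (σ (σ c)) + σ (σ (σ (σ c)))) + 0 * c) ^ 2 = 0 := by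
      generalize (c + σ c) = m0 at a ⊢
      generalize (σ c + σ (σ c)) = m1 at a ⊢
      generalize (σ (σ c) + σ (σ (σ c))) = m2 at a ⊢
      generalize (σ (σ (σ c)) + σ (σ (σ (σ c)))) = m3 at a ⊢
      linear_combination a + (s0 * m0 * (s1 * m1) + s0 * m0 * (s2 * m2) + s0 * m0 * (s3 * m3)
        + s1 * m1 * (s2 * m2) + s1 * m1 * (s3 * m3) + s2 * m2 * (s3 * m3)) * h2
    exact pow_eq_zero_iff (two_ne_zero) |>.mp a')
  rw [hs0, k.1, mul_zero]

theorem W0_add_one (h2 : (2 : K) = 0) (σ : K ≃+* K) (lam x d : K) :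
    W0 σ lam x (d + 1) = W0 σ lam x d + 1 := by
  unfold W0
  simp only [map_add, map_one]
  linear_combination (lam + x + (σ (σ (σ lam)) + 1)) * h2

theorem W1_add_one (h2 : (2 : K) = 0) (σ : K ≃+* K) (lam x d : K) :
    W1 σ lam x (d + 1) = W1 σ lam x d + 1 := by
  unfold W1
  simp only [map_add, map_one]
  linear_combination (lam + σ lam + σ x) * h2

theorem W2_add_one (h2 : (2 : K) = 0) (σ : K ≃+* K) (lam x d : K) :
    W2 σ lam x (d + 1) = W2 σ lam x d + 1 := by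
  unfold W2
  simp only [map_add, map_one]
  linear_combination (x + σ lam + σ (σ lam)) * h2

theorem W3_add_one (h2 : (2 : K) = 0) (σ : K ≃+* K) (lam x d : K) :
    W3 σ lam x (d + 1) = W3 σ lam x d + 1 := by
  unfold W3
  simp only [map_add, map_one]
  linear_combination (σ (σ (σ lam)) + 1 + σ x + σ (σ lam)) * h2

/-- **MR-C2.** -/
theorem t_C2 : StmInd → StmC2 := by
  intro hI K _ _ _ _ σ h8 h4 lam hl x hx e r u he hr hu hQ
  obtain ⟨hind, -⟩ := hI K σ h8 h4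
  have h2 : (2 : K) = 0 := CharTwo.two_eq_zero
  have hx' : σ (σ x) = x + 1 := (mem_filter.mp hx).2
  have he' : σ (σ (σ (σ e))) = e + 1 := by linear_combination he - e * h2
  have hr' : σ (σ (σ (σ r))) = r + 0 := by rw [hr, add_zero]
  have hu' : σ (σ (σ (σ u))) = u + 0 := by rw [hu, add_zero]
  have hadd : ∀ c ∈ VV σ, ∀ d ∈ VV σ, c + d ∈ VV σ := by
    intro c hc d hd
    simp only [VV, mem_filter, mem_univ, true_and] at hc hd ⊢
    simp only [map_add] at hc hd ⊢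
    linear_combination hc + hd
  have key := ind2 h2 σ hadd hind
    (W0 σ lam x e ^ 2 + W0 σ lam x e + W0 σ lam x u * W0 σ lam x r)
    (W1 σ lam x e ^ 2 + W1 σ lam x e + W1 σ lam x u * W1 σ lam x r)
    (W2 σ lam x e ^ 2 + W2 σ lam x e + W2 σ lam x u * W2 σ lam x r)
    (W3 σ lam x e ^ 2 + W3 σ lam x e + W3 σ lam x u * W3 σ lam x r)
    (lam + W0 σ lam x e + W1 σ lam x e + W0 σ lam x u * W1 σ lam x r
      + W1 σ lam x u * W0 σ lam x r)
    (x + W0 σ lam x e + W2 σ lam x e + W0 σ lam x u * W2 σ lam x r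
      + W2 σ lam x u * W0 σ lam x r)
    (σ (σ (σ lam)) + 1 + W0 σ lam x e + W3 σ lam x e + W0 σ lam x u * W3 σ lam x r
      + W3 σ lam x u * W0 σ lam x r)
    (σ lam + W1 σ lam x e + W2 σ lam x e + W1 σ lam x u * W2 σ lam x r
      + W2 σ lam x u * W1 σ lam x r)
    (σ x + W1 σ lam x e + W3 σ lam x e + W1 σ lam x u * W3 σ lam x r
      + W3 σ lam x u * W1 σ lam x r)
    (σ (σ lam) + W2 σ lam x e + W3 σ lam x e + W2 σ lam x u * W3 σ lam x r
      + W3 σ lam x u * W2 σ lam x r)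
    (by
      intro c hc
      have q := hQ c hc
      rw [polar h2, polar h2, polar h2, polar h2, W0_add_one h2, W1_add_one h2, W2_add_one h2,
        W3_add_one h2] at q
      have t1 : e + σ (σ (σ (σ e))) = 1 := he
      have t2 : e + 1 + σ (σ (σ (σ (e + 1)))) = 1 := by
        simp only [map_add, map_one, he']; linear_combination (e + 1) * h2
      have t3 : u + σ (σ (σ (σ u))) = 0 := by rw [hu]; linear_combination u * h2
      have t4 : r + σ (σ (σ (σ r))) = 0 := by rw [hr]; linear_combination r * h2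
      rw [t1, t2, t3, t4] at q
      unfold QQ qf at q
      generalize W0 σ lam x e = w0 at q ⊢
      generalize W1 σ lam x e = w1 at q ⊢
      generalize W2 σ lam x e = w2 at q ⊢
      generalize W3 σ lam x e = w3 at q ⊢
      generalize W0 σ lam x u = u0 at q ⊢
      generalize W1 σ lam x u = u1 at q ⊢
      generalize W2 σ lam x u = u2 at q ⊢
      generalize W3 σ lam x u = u3 at q ⊢
      generalize W0 σ lam x r = r0 at q ⊢
      generalize W1 σ lam x r = r1 at q ⊢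
      generalize W2 σ lam x r = r2 at q ⊢
      generalize W3 σ lam x r = r3 at q ⊢
      obtain ⟨m0, hm0⟩ : ∃ m, m = c + σ c := ⟨_, rfl⟩
      obtain ⟨m1, hm1⟩ : ∃ m, m = σ c + σ (σ c) := ⟨_, rfl⟩
      obtain ⟨m2, hm2⟩ : ∃ m, m = σ (σ c) + σ (σ (σ c)) := ⟨_, rfl⟩
      obtain ⟨m3, hm3⟩ : ∃ m, m = σ (σ (σ c)) + σ (σ (σ (σ c))) := ⟨_, rfl⟩
      have h44 : σ (σ (σ (σ c))) = c + m0 + m1 + m2 + m3 := by
        rw [hm0, hm1, hm2, hm3]
        linear_combination -(c + σ c + σ (σ c) + σ (σ (σ c))) * h2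
      rw [← hm0, ← hm1, ← hm2, ← hm3] at q ⊢
      rw [h44] at q
      clear h44 hm0 hm1 hm2 hm3
      generalize σ (σ (σ lam)) = l3 at q ⊢
      generalize σ (σ lam) = l2 at q ⊢
      generalize σ lam = l1 at q ⊢
      generalize σ x = y at q ⊢
      linear_combination q + ((m0 * w0 + m1 * w1 + m2 * w2 + m3 * w3) ^ 2
        - (w0 * w1 * (m0 * m1) + w0 * w2 * (m0 * m2) + w0 * w3 * (m0 * m3)
          + w1 * w2 * (m1 * m2) + w1 * w3 * (m1 * m3) + w2 * w3 * (m2 * m3))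
        + (m0 * w0 + m1 * w1 + m2 * w2 + m3 * w3) * (m0 + m1 + m2 + m3)
        + (m0 * u0 + m1 * u1 + m2 * u2 + m3 * u3) * (m0 * r0 + m1 * r1 + m2 * r2 + m3 * r3)
        + (m0 * w0 + m1 * w1 + m2 * w2 + m3 * w3) * c) * h2)
  obtain ⟨k01, k0⟩ := key
  have a0 := s0 σ lam x e 1 h2 he' (map_one σ) hl
  have a1 := s1 σ lam x e 1 h2 he' (map_one σ) hx'
  have a2 := s2 σ lam x e 1 h2 he' (map_one σ)
  have a3 := s3 σ lam x e 1 h2 he' hx' hl
  have b0 := s0 σ lam x u 0 h2 hu' (map_zero σ) hl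
  have b1 := s1 σ lam x u 0 h2 hu' (map_zero σ) hx'
  have b2 := s2 σ lam x u 0 h2 hu' (map_zero σ)
  have b3 := s3 σ lam x u 0 h2 hu' hx' hl
  have c0 := s0 σ lam x r 0 h2 hr' (map_zero σ) hl
  obtain ⟨w0, hw0⟩ : ∃ w, w = W0 σ lam x e := ⟨_, rfl⟩
  obtain ⟨w1, hw1⟩ : ∃ w, w = W1 σ lam x e := ⟨_, rfl⟩
  obtain ⟨u0, hu0⟩ : ∃ w, w = W0 σ lam x u := ⟨_, rfl⟩
  obtain ⟨u1, hu1⟩ : ∃ w, w = W1 σ lam x u := ⟨_, rfl⟩
  obtain ⟨r0, hr0⟩ : ∃ w, w = W0 σ lam x r := ⟨_, rfl⟩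
  obtain ⟨r1, hr1⟩ : ∃ w, w = W1 σ lam x r := ⟨_, rfl⟩
  have f4w : σ (σ (σ (σ w0))) = w0 + 1 := by rw [hw0, a0, a1, a2, a3]
  have f4u : σ (σ (σ (σ u0))) = u0 := by rw [hu0, b0, b1, b2, b3, add_zero]
  rw [← hw0, ← hw1] at a0
  rw [← hu0, ← hu1] at b0
  rw [← hr0, ← hr1] at c0
  rw [← hw0, ← hw1, ← hu0, ← hu1, ← hr0, ← hr1] at k01
  rw [← hw0, ← hu0, ← hr0] at k0
  have hz : u0 ≠ 0 := by
    intro hz
    rw [hz] at k0
    have : w0 * (w0 + 1) = 0 := by linear_combination k0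
    rcases mul_eq_zero.mp this with h | h
    · rw [h] at f4w
      simp at f4w
    · have h' : w0 = 1 := by linear_combination h - h2
      rw [h'] at f4w
      simp only [map_one] at f4w
      have : (1 : K) = 0 := by linear_combination -f4w
      exact one_ne_zero this
  have hz1 : u1 ≠ 0 := by
    rw [← b0]
    exact (map_ne_zero σ).mpr hz
  have e0 : w0 ^ 2 + w0 = u0 * r0 := by linear_combination k0 - u0 * r0 * h2
  have e1 : w1 ^ 2 + w1 = u1 * r1 := by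
    have := congrArg σ e0
    simpa only [map_add, map_mul, map_pow, a0, b0, c0] using this
  have e2 : lam = w0 + w1 + u0 * r1 + u1 * r0 := by
    linear_combination k01 - (w0 + w1 + u0 * r1 + u1 * r0) * h2
  have g1 : σ (w0 / u0) = w1 / u1 := by rw [map_div₀, a0, b0]
  have g4 : σ (σ (σ (σ (w0 / u0)))) = (w0 + 1) / u0 := by
    simp only [map_div₀]
    rw [f4w, f4u]
  refine ⟨w0 / u0, ?_, ?_⟩
  · rw [g4]
    intro h
    rw [div_left_inj' hz] at h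
    simp at h
  · rw [g4, g1]
    have g5 : σ ((w0 + 1) / u0) = (w1 + 1) / u1 := by
      rw [map_div₀, map_add, map_one, a0, b0]
    rw [g5]
    exact fin1 h2 lam w0 w1 u0 u1 r0 r1 hz hz1 e0 e1 e2

end

end Pool.Agent.R780.MR
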